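import Pool.Agent.H985R2.BT9

/-!
# The interface of critical bond percolation (`q = 1`) touches the sides of the rectangle with the
probability predicted by SLE(6)

The rectangle is `[0, m + 1/2] × [0, k + 1/2]` in lattice units; the interface starts at its lower
right corner.  The probability that it touches the right side at a height in `[y, y + r)` is of
order `(r / y) ^ (1/3)`, uniformly in the mesh and in the rectangle, and the same holds for the
lower side.  The definitions are in `Pool.Agent.H985R2.BTDefs`.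
-/

namespace Pool.Agent.Results.MP_216314_pr.BoundaryTouching

open H985BT

theorem result : ∃ c C : ℝ, 0 < c ∧ 0 < C ∧
    (∀ m k y r : ℕ, 1 ≤ r → r ≤ y → y ≤ m → 2 * y ≤ k →
      c * ((r : ℝ) / y) ^ ((1 : ℝ) / 3) ≤
          rcP 1 m k (fun ω => ∃ h : ℕ, y ≤ h ∧ h < y + r ∧ TouchRight m k ω h) ∧
        rcP 1 m k (fun ω => ∃ h : ℕ, y ≤ h ∧ h < y + r ∧ TouchRight m k ω h) ≤
          C * ((r : ℝ) / y) ^ ((1 : ℝ) / 3)) ∧
    (∀ m k y r : ℕ, 1 ≤ r → r ≤ y → y ≤ k → 2 * y ≤ m →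
      c * ((r : ℝ) / y) ^ ((1 : ℝ) / 3) ≤
          rcP 1 m k (fun ω => ∃ h : ℕ, y ≤ h ∧ h < y + r ∧ TouchLower m k ω h) ∧
        rcP 1 m k (fun ω => ∃ h : ℕ, y ≤ h ∧ h < y + r ∧ TouchLower m k ω h) ≤
          C * ((r : ℝ) / y) ^ ((1 : ℝ) / 3)) := by
  obtain ⟨c, C, δ, hc, hC, _, h1, h2, _, _⟩ := touching
  exact ⟨c, C, hc, hC, h1, h2⟩

end Pool.Agent.Results.MP_216314_pr.BoundaryTouching
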